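import Pool.Agent.H27.G.R_seed8.TH612.GS.Stm
import Pool.Agent.H27.G.R_seed8.W190.C1

set_option autoImplicit false

/-! # Mean value theorem with the weights `T + n` (job 4422) -/

namespace Pool.Agent.TH928.GS

open Complex Filter Topology MeasureTheory Set
open Pool.Agent.TH612.GS (S_MV)

theorem mv_cont (X : ℕ) (a : ℕ → ℂ) :
    Continuous fun u : ℝ => ∑ n ∈ Finset.Icc 1 X, a n * (n : ℂ) ^ (-(I * (u : ℂ))) := by
  refine continuous_finsetSum _ fun n hn => ?_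
  rw [Finset.mem_Icc] at hn
  have hn0 : (n : ℂ) ≠ 0 := by
    have : n ≠ 0 := by omega
    exact_mod_cast this
  refine continuous_const.mul ?_
  refine Continuous.const_cpow ?_ (Or.inl hn0)
  fun_prop

theorem mv_real (T : ℝ) (X : ℕ) (a : ℕ → ℝ) (hT : 1 ≤ T) (hX : (X : ℝ) ≤ T ^ 2) :
    ∫ u in (0:ℝ)..(2 * T), ‖∑ n ∈ Finset.Icc 1 X, (a n : ℂ) * (n : ℂ) ^ (-(I * u))‖ ^ 2 ≤
      Real.exp 4 * (24 * √Real.pi * ∑ n ∈ Finset.Icc 1 X, (T + n) * a n ^ 2) := by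
  have hT0 : 0 < T := by linarith
  obtain ⟨h1, h2⟩ := Pool.Agent.W190.gmv 0 (Finset.Icc 1 X) a X
    (fun n hn => by rw [Finset.mem_Icc] at hn; exact hn) T hT hX
  have e1 : ∀ (t : ℝ) (n : ℕ), (n : ℂ) ^ (-(((0 : ℝ) : ℂ) + t * I)) = (n : ℂ) ^ (-(I * t)) := by
    intro t n
    congr 1
    push_cast
    ring
  have e2 : ∀ n : ℕ, (n : ℝ) ^ (-(2 * (0 : ℝ))) = 1 := by
    intro n
    simp
  simp only [e1, e2, mul_one] at h1 h2
  rw [intervalIntegral.integral_of_le (by linarith)]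
  have hc : Continuous fun u : ℝ =>
      ‖∑ n ∈ Finset.Icc 1 X, (a n : ℂ) * (n : ℂ) ^ (-(I * (u : ℂ)))‖ ^ 2 :=
    (mv_cont X fun n => (a n : ℂ)).norm.pow 2
  have h3 : ∫ u in Ioc 0 (2 * T), ‖∑ n ∈ Finset.Icc 1 X, (a n : ℂ) * (n : ℂ) ^ (-(I * u))‖ ^ 2 ≤
      ∫ u in Ioc 0 (2 * T), Real.exp 4 * (Real.exp (-(u / T) ^ 2) *
        ‖∑ n ∈ Finset.Icc 1 X, (a n : ℂ) * (n : ℂ) ^ (-(I * u))‖ ^ 2) := by
    refine setIntegral_mono_on (hc.integrableOn_Ioc) ((h1.const_mul _).integrableOn)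
      measurableSet_Ioc fun u hu => ?_
    rw [← mul_assoc, ← Real.exp_add]
    have h4 : (u / T) ^ 2 ≤ 4 := by
      have h5 : 0 ≤ u / T := div_nonneg hu.1.le hT0.le
      have h6 : u / T ≤ 2 := by
        rw [div_le_iff₀ hT0]
        exact hu.2
      nlinarith
    have h7 : 1 ≤ Real.exp (4 + -(u / T) ^ 2) := Real.one_le_exp (by linarith)
    have h8 : 0 ≤ ‖∑ n ∈ Finset.Icc 1 X, (a n : ℂ) * (n : ℂ) ^ (-(I * (u : ℂ)))‖ ^ 2 := by
      positivity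
    nlinarith
  refine h3.trans ?_
  rw [integral_const_mul]
  refine mul_le_mul_of_nonneg_left ?_ (Real.exp_pos 4).le
  refine le_trans (setIntegral_le_integral h1 ?_) h2
  exact Eventually.of_forall fun u => by positivity

theorem t_MV : Pool.Agent.TH612.GS.S_MV := by
  refine ⟨2 * (Real.exp 4 * (24 * √Real.pi)), by positivity, ?_⟩
  intro T X a hT hX
  have hT0 : 0 < T := by linarith
  have hr := mv_real T X (fun n => (a n).re) hT hX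
  have hi := mv_real T X (fun n => (a n).im) hT hX
  have hcr : Continuous fun u : ℝ =>
      ‖∑ n ∈ Finset.Icc 1 X, ((a n).re : ℂ) * (n : ℂ) ^ (-(I * (u : ℂ)))‖ ^ 2 :=
    (mv_cont X fun n => ((a n).re : ℂ)).norm.pow 2
  have hci : Continuous fun u : ℝ =>
      ‖∑ n ∈ Finset.Icc 1 X, ((a n).im : ℂ) * (n : ℂ) ^ (-(I * (u : ℂ)))‖ ^ 2 :=
    (mv_cont X fun n => ((a n).im : ℂ)).norm.pow 2
  have hca : Continuous fun u : ℝ =>
      ‖∑ n ∈ Finset.Icc 1 X, a n * (n : ℂ) ^ (-(I * (u : ℂ)))‖ ^ 2 :=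
    (mv_cont X a).norm.pow 2
  have h1 : ∫ u in (0:ℝ)..(2 * T), ‖∑ n ∈ Finset.Icc 1 X, a n * (n : ℂ) ^ (-(I * u))‖ ^ 2 ≤
      ∫ u in (0:ℝ)..(2 * T),
        (2 * ‖∑ n ∈ Finset.Icc 1 X, ((a n).re : ℂ) * (n : ℂ) ^ (-(I * u))‖ ^ 2 +
        2 * ‖∑ n ∈ Finset.Icc 1 X, ((a n).im : ℂ) * (n : ℂ) ^ (-(I * u))‖ ^ 2) := by
    refine intervalIntegral.integral_mono_on (by linarith) (hca.intervalIntegrable _ _)
      (((hcr.const_mul 2).add (hci.const_mul 2)).intervalIntegrable _ _) fun u _ => ?_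
    have e : ∑ n ∈ Finset.Icc 1 X, a n * (n : ℂ) ^ (-(I * (u : ℂ))) =
        ∑ n ∈ Finset.Icc 1 X, ((a n).re : ℂ) * (n : ℂ) ^ (-(I * (u : ℂ))) +
        I * ∑ n ∈ Finset.Icc 1 X, ((a n).im : ℂ) * (n : ℂ) ^ (-(I * (u : ℂ))) := by
      rw [Finset.mul_sum, ← Finset.sum_add_distrib]
      refine Finset.sum_congr rfl fun n _ => ?_
      conv_lhs => rw [← Complex.re_add_im (a n)]
      ring
    rw [e]
    have h2 := norm_add_le (∑ n ∈ Finset.Icc 1 X, ((a n).re : ℂ) * (n : ℂ) ^ (-(I * (u : ℂ))))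
      (I * ∑ n ∈ Finset.Icc 1 X, ((a n).im : ℂ) * (n : ℂ) ^ (-(I * (u : ℂ))))
    rw [norm_mul, norm_I, one_mul] at h2
    have h3 := norm_nonneg (∑ n ∈ Finset.Icc 1 X, ((a n).re : ℂ) * (n : ℂ) ^ (-(I * (u : ℂ))) +
        I * ∑ n ∈ Finset.Icc 1 X, ((a n).im : ℂ) * (n : ℂ) ^ (-(I * (u : ℂ))))
    nlinarith [sq_nonneg (‖∑ n ∈ Finset.Icc 1 X, ((a n).re : ℂ) * (n : ℂ) ^ (-(I * (u : ℂ)))‖ -
      ‖∑ n ∈ Finset.Icc 1 X, ((a n).im : ℂ) * (n : ℂ) ^ (-(I * (u : ℂ)))‖)]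
  refine h1.trans ?_
  rw [intervalIntegral.integral_add ((hcr.const_mul 2).intervalIntegrable _ _)
    ((hci.const_mul 2).intervalIntegrable _ _), intervalIntegral.integral_const_mul,
    intervalIntegral.integral_const_mul]
  have e3 : ∑ n ∈ Finset.Icc 1 X, (T + n) * ‖a n‖ ^ 2 =
      ∑ n ∈ Finset.Icc 1 X, (T + n) * (a n).re ^ 2 + ∑ n ∈ Finset.Icc 1 X, (T + n) * (a n).im ^ 2 := by
    rw [← Finset.sum_add_distrib]
    refine Finset.sum_congr rfl fun n _ => ?_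
    rw [← Complex.normSq_eq_norm_sq, Complex.normSq_apply]
    ring
  rw [e3]
  linarith

end Pool.Agent.TH928.GS
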